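import Mathlib

/-!
# Extension- and kernel-closed subcategories that are not `n`-fold torsion-free classes

Let `k` be a field and `R` the four-dimensional algebra of the matrices
`[[a, 0, 0], [c, a, 0], [d, 0, b]]`.  It has idempotents `e`, `f` with `e + f = 1` and elements
`θ = e θ e`, `β = f β e` with `θ ^ 2 = 0`, `β θ = 0`.  Let `X` be the class of the modules `M` for
which the kernels of `θ` and of `β` on `e M` are both equal to `θ M` and `f M = β M`, that is, of the
direct sums of copies of the projective module `P = R e`.  It is closed under extensions and under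
`m`-kernels for all `m ≥ 2` by a diagram chase.

Let `⊤ = F 0 ⊇ F 1 ⊇ ... ⊇ F n = X` be a chain in which `F (i + 1)` is a torsion-free class of
`F i`.  The radical `N` of `P` is a direct sum of two simple modules `p` and `b`, and there is an
exact sequence `0 → N → P → p → 0`.  By induction all `F i` contain `N`, `p` and `b`; so `X`
contains `N`, which is absurd.
-/

set_option autoImplicit false

open CategoryTheory CategoryTheory.Limits

universe v u

namespace Pool.Agent.Results.MP_8e2405_al.KernelClosedNotFold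

section Defs

variable {A : Type u} [Category.{v} A] [Abelian A]

/-- `F` is a torsion-free class of the subcategory `E` of the abelian category `A`: it is a
subcategory of `E` (closed under isomorphisms) which is closed under conflations and under
admissible subobjects in `E`; the conflations of `E` are the short exact sequences of `A` all of
whose terms are in `E`. -/
structure IsTorsionFreeClassOf (E F : ObjectProperty A) : Prop where
  le : F ≤ E
  iso : F.IsClosedUnderIsomorphisms
  ext : ∀ S : ShortComplex A, S.ShortExact → E S.X₁ → E S.X₂ → E S.X₃ →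
    F S.X₁ → F S.X₃ → F S.X₂
  sub : ∀ S : ShortComplex A, S.ShortExact → E S.X₁ → E S.X₂ → E S.X₃ → F S.X₂ → F S.X₁

/-- `X` is an `n`-fold torsion-free class of `A`: there is a chain `A = F 0 ⊇ ... ⊇ F n = X` such
that `F (i + 1)` is a torsion-free class of `F i` for all `i < n`. -/
def IsFoldTorsionFree (n : ℕ) (X : ObjectProperty A) : Prop :=
  ∃ F : ℕ → ObjectProperty A, F 0 = ⊤ ∧ F n = X ∧
    ∀ i < n, IsTorsionFreeClassOf (F i) (F (i + 1))

/-- `X` (closed under isomorphisms) is closed under extensions and under `m`-kernels: if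
`0 → Y 0 → Y 1 → ... → Y (m + 1)` is exact and `Y 1, ..., Y (m + 1)` are in `X`, then `Y 0` is in
`X`. (The objects `Y i` with `i > m + 1` play no role.) -/
structure IsKEClosed (m : ℕ) (X : ObjectProperty A) : Prop where
  iso : X.IsClosedUnderIsomorphisms
  ext : ∀ S : ShortComplex A, S.ShortExact → X S.X₁ → X S.X₃ → X S.X₂
  ker : ∀ (Y : ℕ → A) (d : ∀ i, Y i ⟶ Y (i + 1)), Mono (d 0) →
    (∀ i < m, ∃ w : d i ≫ d (i + 1) = 0, (ShortComplex.mk (d i) (d (i + 1)) w).Exact) →
    (∀ i ≤ m, X (Y (i + 1))) → X (Y 0)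

end Defs

variable (k : Type u) [Field k]

/-- The algebra of the matrices `[[a, 0, 0], [c, a, 0], [d, 0, b]]`. -/
def R : Subalgebra k (Matrix (Fin 3) (Fin 3) k) where
  carrier := {M | M 0 0 = M 1 1 ∧ M 0 1 = 0 ∧ M 0 2 = 0 ∧ M 1 2 = 0 ∧ M 2 1 = 0}
  mul_mem' := by
    rintro M N ⟨h1, h2, h3, h4, h5⟩ ⟨g1, g2, g3, g4, g5⟩
    simp only [Set.mem_ofPred_eq, Matrix.mul_apply, Fin.sum_univ_three]
    simp [*]
  add_mem' := by
    rintro M N ⟨h1, h2, h3, h4, h5⟩ ⟨g1, g2, g3, g4, g5⟩
    simp [*]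
  algebraMap_mem' := by
    intro r
    simp [Matrix.algebraMap_matrix_apply]

variable {k}

/-- The idempotent `e`. -/
def e : R k := ⟨!![1, 0, 0; 0, 1, 0; 0, 0, 0], by simp [R, ← SetLike.mem_coe]⟩

/-- The idempotent `f`. -/
def f : R k := ⟨!![0, 0, 0; 0, 0, 0; 0, 0, 1], by simp [R, ← SetLike.mem_coe]⟩

/-- The element `θ`. -/
def θ : R k := ⟨!![0, 0, 0; 1, 0, 0; 0, 0, 0], by simp [R, ← SetLike.mem_coe]⟩

/-- The element `β`. -/
def β : R k := ⟨!![0, 0, 0; 0, 0, 0; 1, 0, 0], by simp [R, ← SetLike.mem_coe]⟩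

lemma e_add_f : (e + f : R k) = 1 := by
  apply Subtype.ext
  ext i j
  fin_cases i <;> fin_cases j <;> simp [e, f]

lemma e_mul_θ : (e * θ : R k) = θ := by
  apply Subtype.ext
  ext i j
  fin_cases i <;> fin_cases j <;> simp [e, θ, Matrix.mul_apply, Fin.sum_univ_three]

lemma θ_mul_e : (θ * e : R k) = θ := by
  apply Subtype.ext
  ext i j
  fin_cases i <;> fin_cases j <;> simp [e, θ, Matrix.mul_apply, Fin.sum_univ_three]

lemma f_mul_β : (f * β : R k) = β := by
  apply Subtype.ext
  ext i j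
  fin_cases i <;> fin_cases j <;> simp [f, β, Matrix.mul_apply, Fin.sum_univ_three]

lemma β_mul_e : (β * e : R k) = β := by
  apply Subtype.ext
  ext i j
  fin_cases i <;> fin_cases j <;> simp [e, β, Matrix.mul_apply, Fin.sum_univ_three]

lemma θ_mul_θ : (θ * θ : R k) = 0 := by
  apply Subtype.ext
  ext i j
  fin_cases i <;> fin_cases j <;> simp [θ, Matrix.mul_apply, Fin.sum_univ_three]

lemma β_mul_θ : (β * θ : R k) = 0 := by
  apply Subtype.ext
  ext i j
  fin_cases i <;> fin_cases j <;> simp [θ, β, Matrix.mul_apply, Fin.sum_univ_three]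

lemma e_mul_e : (e * e : R k) = e := by
  apply Subtype.ext
  ext i j
  fin_cases i <;> fin_cases j <;> simp [e, Matrix.mul_apply, Fin.sum_univ_three]

/-- The condition defining the class `X`. -/
structure Cond (M : Type v) [AddCommGroup M] [Module (R k) M] : Prop where
  c1 : ∀ m : M, (e : R k) • m = m → (θ : R k) • m = 0 → ∃ m', (θ : R k) • m' = m
  c2 : ∀ m : M, (e : R k) • m = m → (β : R k) • m = 0 → ∃ m', (θ : R k) • m' = m
  c3 : ∀ m : M, (f : R k) • m = m → ∃ m', (β : R k) • m' = m

section Lemmas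

variable {M : Type v} [AddCommGroup M] [Module (R k) M]

lemma e_θ (m : M) : (e : R k) • (θ : R k) • m = (θ : R k) • m := by
  rw [← mul_smul, e_mul_θ]

lemma θ_e (m : M) : (θ : R k) • (e : R k) • m = (θ : R k) • m := by
  rw [← mul_smul, θ_mul_e]

lemma f_β (m : M) : (f : R k) • (β : R k) • m = (β : R k) • m := by
  rw [← mul_smul, f_mul_β]

lemma β_e (m : M) : (β : R k) • (e : R k) • m = (β : R k) • m := by
  rw [← mul_smul, β_mul_e]

lemma θ_θ (m : M) : (θ : R k) • (θ : R k) • m = 0 := by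
  rw [← mul_smul, θ_mul_θ, zero_smul]

lemma β_θ (m : M) : (β : R k) • (θ : R k) • m = 0 := by
  rw [← mul_smul, β_mul_θ, zero_smul]

lemma e_e (m : M) : (e : R k) • (e : R k) • m = (e : R k) • m := by
  rw [← mul_smul, e_mul_e]

end Lemmas

section Closure

variable {K X₀ X₁ X₂ : Type v} [AddCommGroup K] [Module (R k) K] [AddCommGroup X₀]
  [Module (R k) X₀] [AddCommGroup X₁] [Module (R k) X₁] [AddCommGroup X₂] [Module (R k) X₂]

/-- The class is closed under `2`-kernels. -/
lemma cond_kernel (i : K →ₗ[R k] X₀) (g : X₀ →ₗ[R k] X₁) (h : X₁ →ₗ[R k] X₂)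
    (hi : Function.Injective i) (hig : Function.Exact i g) (hgh : Function.Exact g h)
    (H₀ : Cond (k := k) X₀) (H₁ : Cond (k := k) X₁) (H₂ : Cond (k := k) X₂) :
    Cond (k := k) K := by
  -- the main step
  have key : ∀ u : X₀, (e : R k) • u = u → (∃ r : X₁, (e : R k) • r = r ∧ g u = (θ : R k) • r) →
      ∃ t : X₀, (e : R k) • t = t ∧ g (u - (θ : R k) • t) = 0 := by
    rintro u hu ⟨r, hr, hur⟩
    have h1 : (θ : R k) • h r = 0 := by
      rw [← map_smul, ← hur]
      exact hgh.apply_apply_eq_zero u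
    have h2 : (e : R k) • h r = h r := by rw [← map_smul, hr]
    obtain ⟨s, hs⟩ := H₂.c1 (h r) h2 h1
    have h3 : h ((β : R k) • r) = 0 := by rw [map_smul, ← hs, β_θ]
    obtain ⟨w, hw⟩ := (hgh _).1 h3
    have h4 : g ((f : R k) • w) = (β : R k) • r := by rw [map_smul, hw, f_β]
    obtain ⟨t, ht⟩ := H₀.c3 ((f : R k) • w) (by
      rw [← mul_smul]
      congr 1
      apply Subtype.ext
      ext a b
      fin_cases a <;> fin_cases b <;> simp [f, Matrix.mul_apply, Fin.sum_univ_three])
    refine ⟨(e : R k) • t, e_e t, ?_⟩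
    have h5 : (β : R k) • (g ((e : R k) • t) - r) = 0 := by
      rw [smul_sub, ← h4, ← ht, map_smul, map_smul, β_e, sub_self]
    have h6 : (e : R k) • (g ((e : R k) • t) - r) = g ((e : R k) • t) - r := by
      rw [smul_sub, hr, ← map_smul, e_e]
    obtain ⟨q, hq⟩ := H₁.c2 _ h6 h5
    have h7 : (θ : R k) • g ((e : R k) • t) = (θ : R k) • r := by
      have : (θ : R k) • (g ((e : R k) • t) - r) = 0 := by rw [← hq, θ_θ]
      rwa [smul_sub, sub_eq_zero] at this
    rw [map_sub, map_smul, h7, hur, sub_self]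
  -- a version for elements killed by `θ` or `β`
  have key2 : ∀ x : K, (e : R k) • x = x → (∃ u, (θ : R k) • u = i x) → ∃ x', (θ : R k) • x' = x := by
    rintro x hx ⟨u, hu⟩
    have h1 : (θ : R k) • g ((e : R k) • u) = 0 := by
      rw [← map_smul, θ_e, hu]
      exact hig.apply_apply_eq_zero x
    obtain ⟨r, hr⟩ := H₁.c1 (g ((e : R k) • u)) (by rw [← map_smul, e_e]) h1
    obtain ⟨t, ht, ht'⟩ := key ((e : R k) • u) (e_e u) ⟨(e : R k) • r, e_e r, by rw [θ_e, hr]⟩
    obtain ⟨x', hx'⟩ := (hig _).1 ht'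
    refine ⟨x', hi ?_⟩
    rw [map_smul, hx', smul_sub, θ_θ, θ_e, hu, sub_zero]
  refine ⟨?_, ?_, ?_⟩
  · intro x hx hθ
    obtain ⟨u, hu⟩ := H₀.c1 (i x) (by rw [← map_smul, hx]) (by rw [← map_smul, hθ, map_zero])
    exact key2 x hx ⟨u, hu⟩
  · intro x hx hβ
    obtain ⟨u, hu⟩ := H₀.c2 (i x) (by rw [← map_smul, hx]) (by rw [← map_smul, hβ, map_zero])
    exact key2 x hx ⟨u, hu⟩
  · intro w hw
    obtain ⟨u, hu⟩ := H₀.c3 (i w) (by rw [← map_smul, hw])
    have h1 : (β : R k) • g ((e : R k) • u) = 0 := by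
      rw [← map_smul, β_e, hu]
      exact hig.apply_apply_eq_zero w
    obtain ⟨r, hr⟩ := H₁.c2 (g ((e : R k) • u)) (by rw [← map_smul, e_e]) h1
    obtain ⟨t, ht, ht'⟩ := key ((e : R k) • u) (e_e u) ⟨(e : R k) • r, e_e r, by rw [θ_e, hr]⟩
    obtain ⟨x', hx'⟩ := (hig _).1 ht'
    refine ⟨x', hi ?_⟩
    rw [map_smul, hx', smul_sub, β_θ, β_e, hu, sub_zero]

/-- The class is closed under extensions. -/
lemma cond_extension (i : K →ₗ[R k] X₀) (g : X₀ →ₗ[R k] X₁) (hi : Function.Injective i)
    (hg : Function.Surjective g) (hig : Function.Exact i g) (H : Cond (k := k) K)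
    (H₁ : Cond (k := k) X₁) : Cond (k := k) X₀ := by
  have key : ∀ x : X₀, (e : R k) • x = x → ∀ y : X₁, (θ : R k) • y = g x →
      ∃ x' : X₀, ∃ z : K, (e : R k) • z = z ∧ x = (θ : R k) • x' + i z := by
    intro x hx y hy
    obtain ⟨x', rfl⟩ := hg y
    have h1 : g (x - (θ : R k) • x') = 0 := by rw [map_sub, map_smul, hy, sub_self]
    obtain ⟨z, hz⟩ := (hig _).1 h1
    refine ⟨x', (e : R k) • z, e_e z, ?_⟩
    rw [map_smul, hz, smul_sub, e_θ, hx]
    abel
  refine ⟨?_, ?_, ?_⟩
  · intro x hx hθ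
    obtain ⟨y, hy⟩ := H₁.c1 (g x) (by rw [← map_smul, hx]) (by rw [← map_smul, hθ, map_zero])
    obtain ⟨x', z, hz, hxz⟩ := key x hx y hy
    have h1 : (θ : R k) • z = 0 := by
      apply hi
      have : (θ : R k) • x = (θ : R k) • i z := by rw [hxz, smul_add, θ_θ, zero_add]
      rw [map_smul, ← this, hθ, map_zero]
    obtain ⟨z', hz'⟩ := H.c1 z hz h1
    refine ⟨x' + i z', ?_⟩
    rw [smul_add, ← map_smul, hz', hxz]
  · intro x hx hβ
    obtain ⟨y, hy⟩ := H₁.c2 (g x) (by rw [← map_smul, hx]) (by rw [← map_smul, hβ, map_zero])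
    obtain ⟨x', z, hz, hxz⟩ := key x hx y hy
    have h1 : (β : R k) • z = 0 := by
      apply hi
      have : (β : R k) • x = (β : R k) • i z := by rw [hxz, smul_add, β_θ, zero_add]
      rw [map_smul, ← this, hβ, map_zero]
    obtain ⟨z', hz'⟩ := H.c2 z hz h1
    refine ⟨x' + i z', ?_⟩
    rw [smul_add, ← map_smul, hz', hxz]
  · intro x hx
    obtain ⟨y, hy⟩ := H₁.c3 (g x) (by rw [← map_smul, hx])
    obtain ⟨x', rfl⟩ := hg y
    have h1 : g (x - (β : R k) • x') = 0 := by rw [map_sub, map_smul, hy, sub_self]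
    obtain ⟨z, hz⟩ := (hig _).1 h1
    obtain ⟨z', hz'⟩ := H.c3 ((f : R k) • z) (by
      rw [← mul_smul]
      congr 1
      apply Subtype.ext
      ext a b
      fin_cases a <;> fin_cases b <;> simp [f, Matrix.mul_apply, Fin.sum_univ_three])
    refine ⟨x' + i z', ?_⟩
    rw [smul_add, ← map_smul, hz', map_smul, hz, smul_sub, hx, f_β]
    abel

end Closure

section Module

variable (k)

/-- The module of column vectors. -/
def P : Type u := Fin 3 → k

instance : AddCommGroup (P k) := inferInstanceAs (AddCommGroup (Fin 3 → k))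

instance : Module (R k) (P k) where
  smul M x := (M : Matrix (Fin 3) (Fin 3) k).mulVec x
  one_smul x := Matrix.one_mulVec x
  mul_smul _ _ x := (Matrix.mulVec_mulVec x _ _).symm
  smul_zero _ := Matrix.mulVec_zero _
  smul_add _ x y := Matrix.mulVec_add _ x y
  add_smul _ _ x := Matrix.add_mulVec _ _ x
  zero_smul x := Matrix.zero_mulVec x

variable {k}

lemma smul_zero_coord (M : R k) (x : P k) : (M • x) 0 = M.1 0 0 * x 0 := by
  have : (M • x) 0 = (M.1.mulVec x) 0 := rfl
  rw [this]
  obtain ⟨M, h1, h2, h3, h4, h5⟩ := M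
  simp [Matrix.mulVec, dotProduct, Fin.sum_univ_three, h2, h3]

lemma smul_one_coord (M : R k) (x : P k) : (M • x) 1 = M.1 1 0 * x 0 + M.1 0 0 * x 1 := by
  have : (M • x) 1 = (M.1.mulVec x) 1 := rfl
  rw [this]
  obtain ⟨M, h1, h2, h3, h4, h5⟩ := M
  simp [Matrix.mulVec, dotProduct, Fin.sum_univ_three, h4, h1]

lemma smul_two_coord (M : R k) (x : P k) : (M • x) 2 = M.1 2 0 * x 0 + M.1 2 2 * x 2 := by
  have : (M • x) 2 = (M.1.mulVec x) 2 := rfl
  rw [this]
  obtain ⟨M, h1, h2, h3, h4, h5⟩ := M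
  simp [Matrix.mulVec, dotProduct, Fin.sum_univ_three, h5]

lemma add_coord (x y : P k) (i : Fin 3) : (x + y) i = x i + y i := rfl

lemma zero_coord (i : Fin 3) : (0 : P k) i = 0 := rfl

/-- Vectors are determined by their coordinates. -/
lemma P_ext {x y : P k} (h0 : x 0 = y 0) (h1 : x 1 = y 1) (h2 : x 2 = y 2) : x = y := by
  funext i
  fin_cases i
  · exact h0
  · exact h1
  · exact h2

/-- The vector with the given coordinates. -/
def vec (a b c : k) : P k := ![a, b, c]

@[simp] lemma vec0 (a b c : k) : vec a b c 0 = a := rfl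
@[simp] lemma vec1 (a b c : k) : vec a b c 1 = b := rfl
@[simp] lemma vec2 (a b c : k) : vec a b c 2 = c := rfl

/-- The radical of `P`. -/
def N : Submodule (R k) (P k) where
  carrier := {x | x 0 = 0}
  add_mem' := by
    intro x y hx hy
    change x 0 = 0 at hx
    change y 0 = 0 at hy
    change (x + y) 0 = 0
    rw [add_coord, hx, hy, add_zero]
  zero_mem' := rfl
  smul_mem' := by
    intro M x hx
    change x 0 = 0 at hx
    change (M • x) 0 = 0
    rw [smul_zero_coord, hx, mul_zero]

/-- The simple submodule `p`. -/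
def p : Submodule (R k) (P k) where
  carrier := {x | x 0 = 0 ∧ x 2 = 0}
  add_mem' := by
    rintro x y ⟨hx, hx'⟩ ⟨hy, hy'⟩
    exact ⟨by rw [add_coord, hx, hy, add_zero], by rw [add_coord, hx', hy', add_zero]⟩
  zero_mem' := ⟨rfl, rfl⟩
  smul_mem' := by
    rintro M x ⟨hx, hx'⟩
    exact ⟨by rw [smul_zero_coord, hx, mul_zero],
      by rw [smul_two_coord, hx, hx', mul_zero, mul_zero, add_zero]⟩

/-- The simple submodule `b`. -/
def b : Submodule (R k) (P k) where
  carrier := {x | x 0 = 0 ∧ x 1 = 0}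
  add_mem' := by
    rintro x y ⟨hx, hx'⟩ ⟨hy, hy'⟩
    exact ⟨by rw [add_coord, hx, hy, add_zero], by rw [add_coord, hx', hy', add_zero]⟩
  zero_mem' := ⟨rfl, rfl⟩
  smul_mem' := by
    rintro M x ⟨hx, hx'⟩
    exact ⟨by rw [smul_zero_coord, hx, mul_zero],
      by rw [smul_one_coord, hx, hx', mul_zero, mul_zero, add_zero]⟩

/-- The surjection `P → p`. -/
def Pp : P k →ₗ[R k] (p (k := k)) where
  toFun x := ⟨vec 0 (x 0) 0, rfl, rfl⟩
  map_add' x y := by
    apply Subtype.ext
    apply P_ext <;> simp [add_coord]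
  map_smul' M x := by
    apply Subtype.ext
    apply P_ext <;> simp [smul_zero_coord, smul_one_coord, smul_two_coord]

/-- The surjection `N → p`. -/
def Np : (N (k := k)) →ₗ[R k] (p (k := k)) where
  toFun x := ⟨vec 0 (x.1 1) 0, rfl, rfl⟩
  map_add' x y := by
    apply Subtype.ext
    apply P_ext <;> simp [add_coord]
  map_smul' M x := by
    have hx : x.1 0 = 0 := x.2
    apply Subtype.ext
    apply P_ext <;> simp [smul_zero_coord, smul_one_coord, smul_two_coord, hx]

/-- The surjection `N → b`. -/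
def Nb : (N (k := k)) →ₗ[R k] (b (k := k)) where
  toFun x := ⟨vec 0 0 (x.1 2), rfl, rfl⟩
  map_add' x y := by
    apply Subtype.ext
    apply P_ext <;> simp [add_coord]
  map_smul' M x := by
    have hx : x.1 0 = 0 := x.2
    apply Subtype.ext
    apply P_ext <;> simp [smul_zero_coord, smul_one_coord, smul_two_coord, hx]

lemma p_le_N : (p (k := k)) ≤ N := fun _ hx => hx.1

lemma b_le_N : (b (k := k)) ≤ N := fun _ hx => hx.1

lemma exact_P : Function.Exact (N (k := k)).subtype Pp := by
  intro x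
  constructor
  · intro h
    have h1 : vec 0 (x 0) 0 = (0 : P k) := congrArg Subtype.val h
    have h2 : x 0 = 0 := congrFun h1 1
    exact ⟨⟨x, h2⟩, rfl⟩
  · rintro ⟨y, rfl⟩
    have hy : y.1 0 = 0 := y.2
    apply Subtype.ext
    apply P_ext
    · rfl
    · exact hy
    · rfl

lemma exact_p : Function.Exact (Submodule.inclusion (p_le_N (k := k))) Nb := by
  intro x
  constructor
  · intro h
    have h1 : vec 0 0 (x.1 2) = (0 : P k) := congrArg Subtype.val h
    have h2 : x.1 2 = 0 := congrFun h1 2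
    exact ⟨⟨x.1, x.2, h2⟩, rfl⟩
  · rintro ⟨y, rfl⟩
    have hy : y.1 2 = 0 := y.2.2
    apply Subtype.ext
    apply P_ext
    · rfl
    · rfl
    · exact hy

lemma exact_b : Function.Exact (Submodule.inclusion (b_le_N (k := k))) Np := by
  intro x
  constructor
  · intro h
    have h1 : vec 0 (x.1 1) 0 = (0 : P k) := congrArg Subtype.val h
    have h2 : x.1 1 = 0 := congrFun h1 1
    exact ⟨⟨x.1, x.2, h2⟩, rfl⟩
  · rintro ⟨y, rfl⟩
    have hy : y.1 1 = 0 := y.2.2
    apply Subtype.ext
    apply P_ext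
    · rfl
    · exact hy
    · rfl

lemma surj_Pp : Function.Surjective (Pp (k := k)) := by
  rintro ⟨y, h0, h2⟩
  refine ⟨vec (y 1) 0 0, ?_⟩
  apply Subtype.ext
  apply P_ext
  · exact h0.symm
  · rfl
  · exact h2.symm

lemma surj_Np : Function.Surjective (Np (k := k)) := by
  rintro ⟨y, h0, h2⟩
  refine ⟨⟨vec 0 (y 1) 0, rfl⟩, ?_⟩
  apply Subtype.ext
  apply P_ext
  · exact h0.symm
  · rfl
  · exact h2.symm

lemma surj_Nb : Function.Surjective (Nb (k := k)) := by
  rintro ⟨y, h0, h2⟩
  refine ⟨⟨vec 0 0 (y 2), rfl⟩, ?_⟩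
  apply Subtype.ext
  apply P_ext
  · exact h0.symm
  · exact h2.symm
  · rfl

lemma θ_smul (x : P k) : (θ : R k) • x = vec 0 (x 0) 0 := by
  apply P_ext
  · rw [smul_zero_coord]; simp [θ]
  · rw [smul_one_coord]; simp [θ]
  · rw [smul_two_coord]; simp [θ]

lemma β_smul (x : P k) : (β : R k) • x = vec 0 0 (x 0) := by
  apply P_ext
  · rw [smul_zero_coord]; simp [β]
  · rw [smul_one_coord]; simp [β]
  · rw [smul_two_coord]; simp [β]

lemma e_smul (x : P k) : (e : R k) • x = vec (x 0) (x 1) 0 := by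
  apply P_ext
  · rw [smul_zero_coord]; simp [e]
  · rw [smul_one_coord]; simp [e]
  · rw [smul_two_coord]; simp [e]

lemma f_smul (x : P k) : (f : R k) • x = vec 0 0 (x 2) := by
  apply P_ext
  · rw [smul_zero_coord]; simp [f]
  · rw [smul_one_coord]; simp [f]
  · rw [smul_two_coord]; simp [f]

/-- `P` is in the class. -/
lemma cond_P : Cond (k := k) (P k) := by
  refine ⟨?_, ?_, ?_⟩
  · intro x hx h
    rw [e_smul] at hx
    rw [θ_smul] at h
    have h0 : x 0 = 0 := congrFun h 1
    have h2 : x 2 = 0 := (congrFun hx 2).symm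
    refine ⟨vec (x 1) 0 0, ?_⟩
    rw [θ_smul]
    exact P_ext h0.symm rfl h2.symm
  · intro x hx h
    rw [e_smul] at hx
    rw [β_smul] at h
    have h0 : x 0 = 0 := congrFun h 2
    have h2 : x 2 = 0 := (congrFun hx 2).symm
    refine ⟨vec (x 1) 0 0, ?_⟩
    rw [θ_smul]
    exact P_ext h0.symm rfl h2.symm
  · intro x hx
    rw [f_smul] at hx
    refine ⟨vec (x 2) 0 0, ?_⟩
    rw [β_smul]
    exact P_ext (congrFun hx 0) (congrFun hx 1) rfl

/-- `N` is not in the class. -/
lemma not_cond_N : ¬ Cond (k := k) (N (k := k)) := by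
  intro h
  obtain ⟨x, hx⟩ := h.c1 ⟨vec 0 1 0, rfl⟩ (by
    apply Subtype.ext
    change (e : R k) • vec 0 1 0 = vec 0 1 0
    rw [e_smul]
    rfl) (by
    apply Subtype.ext
    change (θ : R k) • vec 0 1 0 = 0
    rw [θ_smul]
    exact P_ext rfl rfl rfl)
  have h1 : (θ : R k) • x.1 = vec 0 1 0 := congrArg Subtype.val hx
  rw [θ_smul] at h1
  have h2 : x.1 0 = 1 := congrFun h1 1
  have h3 : x.1 0 = 0 := x.2
  rw [h3] at h2
  exact zero_ne_one h2

end Module

lemma comp_zero {S : Type u} [Ring S] {K L M : Type u} [AddCommGroup K] [Module S K]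
    [AddCommGroup L] [Module S L] [AddCommGroup M] [Module S M] (i : K →ₗ[S] L) (g : L →ₗ[S] M)
    (h : Function.Exact i g) : ModuleCat.ofHom i ≫ ModuleCat.ofHom g = 0 := by
  ext x
  exact h.apply_apply_eq_zero x

/-- A short exact sequence of modules from linear maps. -/
lemma shortExact_mk {S : Type u} [Ring S] {K L M : Type u} [AddCommGroup K] [Module S K]
    [AddCommGroup L] [Module S L] [AddCommGroup M] [Module S M] (i : K →ₗ[S] L) (g : L →ₗ[S] M)
    (hi : Function.Injective i) (hg : Function.Surjective g) (h : Function.Exact i g) :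
    (ShortComplex.mk (ModuleCat.ofHom i) (ModuleCat.ofHom g) (comp_zero i g h)).ShortExact := by
  have : Mono (ModuleCat.ofHom i) := (ModuleCat.mono_iff_injective _).2 hi
  have : Epi (ModuleCat.ofHom g) := (ModuleCat.epi_iff_surjective _).2 hg
  exact ⟨(ShortComplex.ShortExact.moduleCat_exact_iff_function_exact _).2 h⟩

variable (k) in
/-- `N` as an object. -/
abbrev NObj : ModuleCat.{u} (R k) := ModuleCat.of (R k) (N (k := k))

variable (k) in
/-- `P` as an object. -/
abbrev PObj : ModuleCat.{u} (R k) := ModuleCat.of (R k) (P k)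

variable (k) in
/-- `p` as an object. -/
abbrev pObj : ModuleCat.{u} (R k) := ModuleCat.of (R k) (p (k := k))

variable (k) in
/-- `b` as an object. -/
abbrev bObj : ModuleCat.{u} (R k) := ModuleCat.of (R k) (b (k := k))

lemma seq_P : ∃ S : ShortComplex (ModuleCat.{u} (R k)),
    S.ShortExact ∧ S.X₁ = NObj k ∧ S.X₂ = PObj k ∧ S.X₃ = pObj k :=
  ⟨_, shortExact_mk (S := R k) (K := N (k := k)) (L := P k) (M := p (k := k)) (N (k := k)).subtype
    (Pp (k := k)) (Submodule.injective_subtype _) surj_Pp exact_P, rfl, rfl, rfl⟩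

lemma seq_p : ∃ S : ShortComplex (ModuleCat.{u} (R k)),
    S.ShortExact ∧ S.X₁ = pObj k ∧ S.X₂ = NObj k ∧ S.X₃ = bObj k :=
  ⟨_, shortExact_mk (S := R k) (K := p (k := k)) (L := N (k := k)) (M := b (k := k))
    (Submodule.inclusion (p_le_N (k := k))) (Nb (k := k)) (Submodule.inclusion_injective _)
    surj_Nb exact_p, rfl, rfl, rfl⟩

lemma seq_b : ∃ S : ShortComplex (ModuleCat.{u} (R k)),
    S.ShortExact ∧ S.X₁ = bObj k ∧ S.X₂ = NObj k ∧ S.X₃ = pObj k :=
  ⟨_, shortExact_mk (S := R k) (K := b (k := k)) (L := N (k := k)) (M := p (k := k))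
    (Submodule.inclusion (b_le_N (k := k))) (Np (k := k)) (Submodule.inclusion_injective _)
    surj_Np exact_b, rfl, rfl, rfl⟩

variable (k) in
/-- The subcategory `X`. -/
def X : ObjectProperty (ModuleCat.{u} (R k)) := fun M => Cond (k := k) M

lemma X_iso : (X k).IsClosedUnderIsomorphisms := by
  constructor
  intro M M' φ h
  have h1 : Cond (k := k) M := h
  have hi : Function.Injective φ.inv.hom := fun x y hxy => by
    have := congrArg φ.hom.hom hxy
    simpa using this
  have hsurj : Function.Surjective φ.inv.hom := fun x => ⟨φ.hom.hom x, by simp⟩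
  -- use closure under extensions with the zero module
  refine cond_extension (K := PUnit.{u+1}) (X₁ := M) (0 : PUnit.{u+1} →ₗ[R k] M') φ.inv.hom ?_ hsurj ?_ ?_ h1
  · intro a b _
    rfl
  · intro x
    constructor
    · intro hx
      refine ⟨PUnit.unit, ?_⟩
      have : φ.inv.hom x = φ.inv.hom 0 := by rw [hx, map_zero]
      exact (hi this).symm
    · rintro ⟨_, rfl⟩
      simp
  · exact ⟨fun x _ _ => ⟨x, rfl⟩, fun x _ _ => ⟨x, rfl⟩, fun x _ => ⟨x, rfl⟩⟩

lemma X_ext (S : ShortComplex (ModuleCat.{u} (R k))) (hS : S.ShortExact) (h1 : X k S.X₁)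
    (h3 : X k S.X₃) : X k S.X₂ := by
  have := hS.mono_f
  have := hS.epi_g
  exact cond_extension S.f.hom S.g.hom ((ModuleCat.mono_iff_injective _).1 hS.mono_f)
    ((ModuleCat.epi_iff_surjective _).1 hS.epi_g)
    ((ShortComplex.ShortExact.moduleCat_exact_iff_function_exact _).1 hS.exact) h1 h3

/-- Let `k` be a field. There are a finite-dimensional `k`-algebra `R` and a subcategory `X` of the
abelian category of `R`-modules which is closed under extensions and under `(n - 1)`-kernels for all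
`n ≥ 3`, but which is not an `n`-fold torsion-free class for any `n`. -/
theorem result (k : Type u) [Field k] :
    ∃ (R : Type u) (_ : Ring R) (_ : Algebra k R) (_ : FiniteDimensional k R)
      (X : ObjectProperty (ModuleCat.{u} R)),
      (∀ n : ℕ, 3 ≤ n → IsKEClosed (n - 1) X) ∧ ∀ n : ℕ, ¬ IsFoldTorsionFree n X := by
  refine ⟨R k, inferInstance, inferInstance, inferInstance, X k, ?_, ?_⟩
  · intro n hn
    refine ⟨X_iso, X_ext, ?_⟩
    intro Y d hmono hex hX
    obtain ⟨w0, h0⟩ := hex 0 (by omega)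
    obtain ⟨w1, h1⟩ := hex 1 (by omega)
    exact cond_kernel (d 0).hom (d 1).hom (d 2).hom
      ((ModuleCat.mono_iff_injective _).1 hmono)
      ((ShortComplex.ShortExact.moduleCat_exact_iff_function_exact _).1 h0)
      ((ShortComplex.ShortExact.moduleCat_exact_iff_function_exact _).1 h1)
      (hX 0 (by omega)) (hX 1 (by omega)) (hX 2 (by omega))
  · rintro n ⟨F, hF0, hFn, hF⟩
    have hle : ∀ j, j ≤ n → F n ≤ F (n - j) := by
      intro j
      induction j with
      | zero => intro _; exact le_of_eq (by simp)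
      | succ j ih =>
        intro hj
        have h1 := (hF (n - (j + 1)) (by omega)).le
        have h2 : n - (j + 1) + 1 = n - j := by omega
        rw [h2] at h1
        exact le_trans (ih (by omega)) h1
    have hP : ∀ i ≤ n, F i (PObj k) := by
      intro i hi
      have h1 := hle (n - i) (by omega)
      have h2 : n - (n - i) = i := by omega
      rw [h2] at h1
      apply h1
      rw [hFn]
      exact cond_P
    obtain ⟨S₁, s1, s11, s12, s13⟩ := seq_P (k := k)
    obtain ⟨S₂, s2, s21, s22, s23⟩ := seq_p (k := k)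
    obtain ⟨S₃, s3, s31, s32, s33⟩ := seq_b (k := k)
    have key : ∀ i ≤ n, F i (NObj k) ∧ F i (pObj k) ∧ F i (bObj k) := by
      intro i
      induction i with
      | zero =>
        intro _
        rw [hF0]
        exact ⟨trivial, trivial, trivial⟩
      | succ i ih =>
        intro hi
        obtain ⟨hN, hp, hb⟩ := ih (by omega)
        have hi' := hF i (by omega)
        have h1 : F (i + 1) (NObj k) := by
          have := hi'.sub S₁ s1 (by rwa [s11]) (by rw [s12]; exact hP i (by omega))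
            (by rwa [s13]) (by rw [s12]; exact hP (i + 1) hi)
          rwa [s11] at this
        refine ⟨h1, ?_, ?_⟩
        · have := hi'.sub S₂ s2 (by rwa [s21]) (by rwa [s22]) (by rwa [s23]) (by rwa [s22])
          rwa [s21] at this
        · have := hi'.sub S₃ s3 (by rwa [s31]) (by rwa [s32]) (by rwa [s33]) (by rwa [s32])
          rwa [s31] at this
    have h1 := (key n le_rfl).1
    rw [hFn] at h1
    exact not_cond_N h1

end Pool.Agent.Results.MP_8e2405_al.KernelClosedNotFold
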